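import Mathlib
import Pool.Agent.Q182.DCDefs
import Pool.Agent.Q182.DCSym
import Pool.Agent.Q182.DCHeis

/-!
# Closedness of bounded double-centralizer sets (MP_b73301_gt): both answers are negative

For the first question the group is the group of finitely supported permutations of the natural
numbers with `n = 2`, for the second question it is an extra-special type group of exponent four
with `n = 4`.
-/

namespace Pool.Agent.Results.MP_b73301_gt.NotClosedNotSigmaDiscrete

open Q182.DC Topology

theorem result :
    (∃ (S : Type) (_ : Group S), FiniteDoubleCentralizers S ∧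
      ¬ IsClosed[semiZariski S] (SLe S 2)) ∧
    (∃ (S : Type) (_ : Group S), FiniteDoubleCentralizers S ∧ SLe S 4 = Set.univ ∧
      ¬ IsSigmaDiscreteIn (semiZariski S) (SLe S 4)) := by
  refine ⟨⟨FSym, inferInstance, fsym_finite, fsym_not_closed⟩, Heis, inferInstance, heis_finite, ?_⟩
  have h : SLe Heis 4 = Set.univ := Set.eq_univ_of_forall fun x => heis_le x
  refine ⟨h, ?_⟩
  rw [h]
  exact heis_not_sigma

end Pool.Agent.Results.MP_b73301_gt.NotClosedNotSigmaDiscrete
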